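import Pool.Agent.helper52.IR.Spec
import Pool.Agent.helper41.MS.HD2

/-! Row ir:CTF (MP_07c750_an): counting on an unstable arc. -/

set_option autoImplicit false

open scoped MatrixGroups ContDiff Topology UpperHalfPlane ComplexConjugate
open UpperHalfPlane MeasureTheory Filter Set

namespace Pool.Agent.IR

open Pool.Agent.RS
open Pool.Agent.MS (bq)
open Pool.Agent.HV (FW)

theorem CTF_mul (A B : SL(2, ℝ)) (i j : Fin 2) : (A * B).1 i j = A.1 i 0 * B.1 0 j + A.1 i 1 * B.1 1 j := by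
  change (A.1 * B.1) i j = _
  rw [Matrix.mul_apply, Fin.sum_univ_two]

theorem CTF_ent (h : SL(2, ℝ)) (s : ℝ) (i : Fin 2) : (h * lM s).1 i 0 = h.1 i 0 + h.1 i 1 * s ∧ (h * lM s).1 i 1 = h.1 i 1 := by
  have l1 : (lM s).1 0 0 = 1 := rfl
  have l2 : (lM s).1 0 1 = 0 := rfl
  have l3 : (lM s).1 1 0 = s := rfl
  have l4 : (lM s).1 1 1 = 1 := rfl
  constructor
  · rw [CTF_mul, l1, l3]
    ring
  · rw [CTF_mul, l2, l4]
    ring

theorem CTF_card (S : Finset ℤ) (D : ℝ) (hD : 0 ≤ D) (h : ∀ i ∈ S, ∀ j ∈ S, |(i : ℝ) - j| ≤ D) : (S.card : ℝ) ≤ D + 1 := by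
  rcases S.eq_empty_or_nonempty with he | hne
  · rw [he, Finset.card_empty, Nat.cast_zero]
    linarith
  · have h1 : S ⊆ Finset.Icc (S.min' hne) (S.max' hne) := fun i hi =>
      Finset.mem_Icc.2 ⟨S.min'_le i hi, S.le_max' i hi⟩
    have h2 := Finset.card_le_card h1
    rw [Int.card_Icc] at h2
    have h3 := h _ (S.max'_mem hne) _ (S.min'_mem hne)
    have h4 : S.min' hne ≤ S.max' hne := S.min'_le_max' hne
    have h5 : ((S.card : ℕ) : ℤ) ≤ S.max' hne + 1 - S.min' hne := by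
      have : ((S.max' hne + 1 - S.min' hne).toNat : ℤ) = S.max' hne + 1 - S.min' hne := Int.toNat_of_nonneg (by omega)
      rw [← this]
      exact_mod_cast h2
    have h6 : ((S.card : ℕ) : ℝ) ≤ (S.max' hne : ℝ) + 1 - (S.min' hne : ℝ) := by exact_mod_cast h5
    have h7 := le_abs_self ((S.max' hne : ℝ) - (S.min' hne : ℝ))
    linarith

theorem CTF_eight (h : SL(2, ℝ)) (s b v : ℝ) (hb : 0 < b) (hb8 : b ≤ 1 / 100) (hv : 0 ≤ v) (hv1 : v ≤ 1) (hs : |s| ≤ 4)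
    (hq : bq b b (b * v) (h * lM s)) : ∀ i j, |h.1 i j| ≤ 8 := by
  obtain ⟨q1, q2, q3, q4⟩ := hq
  have hbv : b * v ≤ 1 / 100 := by nlinarith
  rw [(CTF_ent h s 0).1] at q1
  rw [(CTF_ent h s 1).2] at q2
  rw [(CTF_ent h s 0).2] at q3
  rw [(CTF_ent h s 1).1] at q4
  have a1 := abs_le.1 q1
  have a2 := abs_le.1 q2
  have a3 := abs_le.1 q3
  have a4 := abs_le.1 q4
  have c1 : |h.1 0 1 * s| ≤ 1 / 100 * 4 := by
    rw [abs_mul]
    exact mul_le_mul (q3.trans hb8) hs (abs_nonneg _) (by norm_num)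
  have c2 : |h.1 1 1 * s| ≤ 2 * 4 := by
    rw [abs_mul]
    refine mul_le_mul ?_ hs (abs_nonneg _) (by norm_num)
    rw [abs_le]
    constructor <;> linarith [a2.1, a2.2]
  have c3 : |h.1 1 1 * s| ≤ 101 / 100 * 4 := by
    rw [abs_mul]
    refine mul_le_mul ?_ hs (abs_nonneg _) (by norm_num)
    rw [abs_le]
    constructor <;> linarith [a2.1, a2.2]
  have d1 := abs_le.1 c1
  have d3 := abs_le.1 c3
  intro i j
  fin_cases i <;> fin_cases j
  · show |h.1 0 0| ≤ 8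
    rw [abs_le]
    constructor <;> linarith [a1.1, a1.2, d1.1, d1.2]
  · show |h.1 0 1| ≤ 8
    linarith
  · show |h.1 1 0| ≤ 8
    rw [abs_le]
    constructor <;> linarith [a4.1, a4.2, d3.1, d3.2]
  · show |h.1 1 1| ≤ 8
    rw [abs_le]
    constructor <;> linarith [a2.1, a2.2]

theorem CTF_dist (h : SL(2, ℝ)) (s s' b v : ℝ) (hb8 : b ≤ 1 / 100) (hv : 0 ≤ v)
    (hq : bq b b (b * v) (h * lM s)) (hq' : bq b b (b * v) (h * lM s')) : |s - s'| ≤ v := by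
  obtain ⟨q1, q2, q3, q4⟩ := hq
  obtain ⟨r1, r2, r3, r4⟩ := hq'
  rw [(CTF_ent h s 1).2] at q2
  rw [(CTF_ent h s 1).1] at q4
  rw [(CTF_ent h s' 1).1] at r4
  have a2 := abs_le.1 q2
  have e1 : h.1 1 1 * (s - s') = (h.1 1 0 + h.1 1 1 * s) - (h.1 1 0 + h.1 1 1 * s') := by ring
  have e2 : |h.1 1 1 * (s - s')| ≤ 2 * (b * v) := by
    rw [e1]
    refine (abs_sub _ _).trans ?_
    linarith
  have e3 : 0 < h.1 1 1 := by linarith [a2.1]
  rw [abs_mul, abs_of_pos e3] at e2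
  have e4 : 99 / 100 * |s - s'| ≤ h.1 1 1 * |s - s'| := mul_le_mul_of_nonneg_right (by linarith [a2.1]) (abs_nonneg _)
  have e5 : b * v ≤ 1 / 100 * v := mul_le_mul_of_nonneg_right hb8 hv
  linarith [abs_nonneg (s - s')]

open Classical in
theorem CTF_main (Γ : Subgroup SL(2, ℝ)) (hΓ : QU.SurfaceGroup Γ) : ∃ C : ℝ, 0 < C ∧ ∀ (b k : ℝ) (A : Finset SL(2, ℝ)) (g : SL(2, ℝ)) (T : Finset ℤ), 0 < b → b ≤ 1 / 100 → 0 ≤ k →
  (∀ m ∈ T, ∃ v : ℝ, |v| ≤ 4 ∧ m ≤ v * Real.exp k ∧ v * Real.exp k < m + 1 ∧ g * lM v ∈ FW Γ A b (Real.exp (-k))) → (T.card : ℝ) ≤ C * A.card := by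
  obtain ⟨N₀, hN₀⟩ := Pool.Agent.MS.HD2_fin Γ hΓ
  refine ⟨((N₀ : ℝ) + 1) * 3, by positivity, ?_⟩
  intro b k A g T hb hb8 hk hT
  have hek : Real.exp (-k) ≤ 1 := Real.exp_le_one_iff.2 (by linarith)
  have hek0 : 0 ≤ Real.exp (-k) := (Real.exp_pos _).le
  let Fy : SL(2, ℝ) → Finset Γ := fun y => (hN₀ y g).1.toFinset
  let Jy : SL(2, ℝ) → Γ → Finset ℤ := fun y γ =>
    T.filter fun m => ∃ v : ℝ, |v| ≤ 4 ∧ (m : ℝ) ≤ v * Real.exp k ∧ v * Real.exp k < m + 1 ∧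
      bq b b (b * Real.exp (-k)) (y⁻¹ * (γ : SL(2, ℝ)) * g * lM v)
  have hsub : T ⊆ A.biUnion fun y => (Fy y).biUnion fun γ => Jy y γ := by
    intro m hm
    obtain ⟨v, h1, h2, h3, y, hy, γ, hq⟩ := hT m hm
    have hq' : bq b b (b * Real.exp (-k)) (y⁻¹ * (γ : SL(2, ℝ)) * g * lM v) := by
      have e : y⁻¹ * (γ : SL(2, ℝ)) * g * lM v = y⁻¹ * (γ : SL(2, ℝ)) * (g * lM v) := by
        simp only [mul_assoc]
      rw [e]
      exact hq
    rw [Finset.mem_biUnion]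
    refine ⟨y, hy, ?_⟩
    rw [Finset.mem_biUnion]
    refine ⟨γ, ?_, ?_⟩
    · rw [Set.Finite.mem_toFinset]
      exact CTF_eight _ v b (Real.exp (-k)) hb hb8 hek0 hek h1 hq'
    · rw [Finset.mem_filter]
      exact ⟨hm, v, h1, h2, h3, hq'⟩
  have hone : ∀ y γ, ((Jy y γ).card : ℝ) ≤ 3 := by
    intro y γ
    refine (CTF_card (Jy y γ) 2 (by norm_num) fun i hi j hj => ?_).trans (by norm_num)
    rw [Finset.mem_filter] at hi hj
    obtain ⟨-, v, -, a1, a2, hqi⟩ := hi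
    obtain ⟨-, v', -, b1, b2, hqj⟩ := hj
    have h1 := CTF_dist (y⁻¹ * (γ : SL(2, ℝ)) * g) v v' b (Real.exp (-k)) hb8 hek0 hqi hqj
    have h2 : |v * Real.exp k - v' * Real.exp k| ≤ 1 := by
      rw [← sub_mul, abs_mul, abs_of_pos (Real.exp_pos k)]
      calc |v - v'| * Real.exp k ≤ Real.exp (-k) * Real.exp k := mul_le_mul_of_nonneg_right h1 (Real.exp_pos k).le
        _ = 1 := by rw [← Real.exp_add, neg_add_cancel, Real.exp_zero]
    have h3 := abs_le.1 h2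
    rw [abs_le]
    constructor <;> linarith [h3.1, h3.2]
  have hFy : ∀ y, ((Fy y).card : ℝ) ≤ (N₀ : ℝ) + 1 := by
    intro y
    have h1 : (Fy y).card ≤ N₀ := by
      have := (hN₀ y g).2
      rw [Set.ncard_eq_toFinset_card _ (hN₀ y g).1] at this
      exact this
    have h2 : ((Fy y).card : ℝ) ≤ N₀ := by exact_mod_cast h1
    linarith
  have h1 : (T.card : ℝ) ≤ ∑ y ∈ A, ∑ γ ∈ Fy y, ((Jy y γ).card : ℝ) := by
    have h2 : T.card ≤ ∑ y ∈ A, ∑ γ ∈ Fy y, (Jy y γ).card :=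
      (Finset.card_le_card hsub).trans (Finset.card_biUnion_le.trans (Finset.sum_le_sum fun y _ => Finset.card_biUnion_le))
    exact_mod_cast h2
  refine h1.trans ?_
  calc ∑ y ∈ A, ∑ γ ∈ Fy y, ((Jy y γ).card : ℝ) ≤ ∑ y ∈ A, ∑ γ ∈ Fy y, (3 : ℝ) :=
        Finset.sum_le_sum fun y _ => Finset.sum_le_sum fun γ _ => hone y γ
    _ = ∑ y ∈ A, ((Fy y).card : ℝ) * 3 := by
        refine Finset.sum_congr rfl fun y _ => ?_
        rw [Finset.sum_const, nsmul_eq_mul]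
    _ ≤ ∑ y ∈ A, ((N₀ : ℝ) + 1) * 3 := Finset.sum_le_sum fun y _ => mul_le_mul_of_nonneg_right (hFy y) (by norm_num)
    _ = ((N₀ : ℝ) + 1) * 3 * A.card := by
        rw [Finset.sum_const, nsmul_eq_mul]
        ring

theorem CTF_proof : CTF_stmt := fun Γ hΓ => CTF_main Γ hΓ

end Pool.Agent.IR
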